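import Pool.Agent.Helper45.LinK.GoalsK

set_option autoImplicit false

namespace Pool.Agent.Helper32.LinK.ZASP

open Pool.Agent.Helper45.LinK Pool.Agent.Helper95.Lin Pool.Agent.Helper16.Abund Pool.Agent.Helper92.Orb

section

variable {k : ℕ} {N : Type} [Group N] {A : N →* CE k} {a : N → Cn k}

lemma mulinv (A : N →* CE k) (x : N) : A x * A x⁻¹ = 1 := by
  rw [← map_mul, mul_inv_cancel, map_one]

/-- the linear part of the commutator -/
lemma lin_comm (A : N →* CE k) (f c : N) :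
    A (f * c * f⁻¹ * c⁻¹) - 1 =
      ((A f - 1) * (A c - 1) - (A c - 1) * (A f - 1)) * A ((c * f)⁻¹) := by
  have h1 : A (f * c * f⁻¹ * c⁻¹) = A f * A c * A ((c * f)⁻¹) := by
    rw [← map_mul, ← map_mul]
    congr 1
    group
  have h2 : (1 : CE k) = A c * A f * A ((c * f)⁻¹) := by
    rw [← map_mul, mulinv]
  have h3 : (A f - 1) * (A c - 1) - (A c - 1) * (A f - 1) = A f * A c - A c * A f := by
    simp only [mul_sub, sub_mul, mul_one, one_mul]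
    abel
  rw [h3, sub_mul, ← h1, ← h2]

lemma norm_lin (A : N →* CE k) (C : ℝ) (hC : ∀ ν, ‖A ν‖ ≤ C) (hC0 : 0 ≤ C) (f c : N) :
    ‖A (f * c * f⁻¹ * c⁻¹) - 1‖ ≤ 2 * C * ‖A f - 1‖ * ‖A c - 1‖ := by
  rw [lin_comm]
  have h1 : ‖(A f - 1) * (A c - 1) - (A c - 1) * (A f - 1)‖ ≤ 2 * (‖A f - 1‖ * ‖A c - 1‖) := by
    calc _ ≤ ‖(A f - 1) * (A c - 1)‖ + ‖(A c - 1) * (A f - 1)‖ := norm_sub_le _ _
      _ ≤ ‖A f - 1‖ * ‖A c - 1‖ + ‖A c - 1‖ * ‖A f - 1‖ := add_le_add (norm_mul_le _ _) (norm_mul_le _ _)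
      _ = _ := by ring
  calc _ ≤ ‖(A f - 1) * (A c - 1) - (A c - 1) * (A f - 1)‖ * ‖A ((c * f)⁻¹)‖ := norm_mul_le _ _
    _ ≤ (2 * (‖A f - 1‖ * ‖A c - 1‖)) * C := by
        apply mul_le_mul h1 (hC _) (norm_nonneg _)
        positivity
    _ = _ := by ring

/-- the translation part of the commutator -/
lemma tr_comm (h : AffN A a) (f c : N) :
    a (f * c * f⁻¹ * c⁻¹) = (A f - A (f * c * f⁻¹ * c⁻¹)) (a c) +
      (1 - A (f * c * f⁻¹ * c⁻¹) * A c) (a f) := by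
  have h1 : a ((f * c * f⁻¹ * c⁻¹) * (c * f)) = a (f * c) := by
    congr 1
    group
  rw [h.mul, h.mul c f, h.mul f c] at h1
  simp only [map_add] at h1
  have e1 : (A f - A (f * c * f⁻¹ * c⁻¹)) (a c) = A f (a c) - A (f * c * f⁻¹ * c⁻¹) (a c) := rfl
  have e2 : (1 - A (f * c * f⁻¹ * c⁻¹) * A c) (a f) = a f - A (f * c * f⁻¹ * c⁻¹) (A c (a f)) := rfl
  rw [e1, e2]
  have h2 : a (f * c * f⁻¹ * c⁻¹) = A f (a c) + a f -
    (A (f * c * f⁻¹ * c⁻¹) (A c (a f)) + A (f * c * f⁻¹ * c⁻¹) (a c)) := by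
    rw [← h1]; abel
  rw [h2]
  abel

lemma norm_tr (h : AffN A a) (C : ℝ) (hC : ∀ ν, ‖A ν‖ ≤ C) (f c : N) :
    ‖a (f * c * f⁻¹ * c⁻¹)‖ ≤ (‖A f - 1‖ + ‖A (f * c * f⁻¹ * c⁻¹) - 1‖) * ‖a c‖ +
      (‖A (f * c * f⁻¹ * c⁻¹) - 1‖ * C + ‖A c - 1‖) * ‖a f‖ := by
  have h0 := tr_comm h f c
  set L := A (f * c * f⁻¹ * c⁻¹) with hL
  have e1 : ‖A f - L‖ ≤ ‖A f - 1‖ + ‖L - 1‖ := by
    have : A f - L = (A f - 1) - (L - 1) := by abel
    rw [this]
    exact norm_sub_le _ _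
  have e2 : ‖1 - L * A c‖ ≤ ‖L - 1‖ * C + ‖A c - 1‖ := by
    have : 1 - L * A c = -((L - 1) * A c) - (A c - 1) := by
      simp only [sub_mul, one_mul]
      abel
    rw [this]
    calc _ ≤ ‖-((L - 1) * A c)‖ + ‖A c - 1‖ := norm_sub_le _ _
      _ = ‖(L - 1) * A c‖ + ‖A c - 1‖ := by rw [norm_neg]
      _ ≤ ‖L - 1‖ * ‖A c‖ + ‖A c - 1‖ := by gcongr; exact norm_mul_le _ _
      _ ≤ _ := by gcongr; exact hC c
  rw [h0]
  calc _ ≤ ‖(A f - L) (a c)‖ + ‖(1 - L * A c) (a f)‖ := norm_add_le _ _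
    _ ≤ ‖A f - L‖ * ‖a c‖ + ‖1 - L * A c‖ * ‖a f‖ :=
        add_le_add (ContinuousLinearMap.le_opNorm _ _) (ContinuousLinearMap.le_opNorm _ _)
    _ ≤ _ := by gcongr

/-- a neighbourhood of the identity that contains no other element, up to the kernel -/
lemma gap (h : AffN A a) : ∃ δ : ℝ, 0 < δ ∧ ∀ ν, ‖A ν - 1‖ < δ → ‖a ν‖ < δ → A ν = 1 ∧ a ν = 0 := by
  classical
  let m : N → ℝ := fun ν => max ‖A ν - 1‖ ‖a ν‖
  have hfin : ({ν | ‖a ν‖ ≤ 1} ∩ {ν | 0 < m ν}).Finite := (h.proper 1).subset Set.inter_subset_left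
  have hm0 : ∀ ν, ¬ 0 < m ν → A ν = 1 ∧ a ν = 0 := by
    intro ν hν
    have h1 : m ν ≤ 0 := not_lt.1 hν
    have h2 : ‖A ν - 1‖ ≤ 0 := (le_max_left _ _).trans h1
    have h3 : ‖a ν‖ ≤ 0 := (le_max_right _ _).trans h1
    exact ⟨sub_eq_zero.1 (norm_le_zero_iff.1 h2), norm_le_zero_iff.1 h3⟩
  rcases Set.eq_empty_or_nonempty ({ν | ‖a ν‖ ≤ 1} ∩ {ν | 0 < m ν}) with he | hne
  · refine ⟨1, one_pos, fun ν _ h2 => hm0 ν fun hp => ?_⟩
    have : ν ∈ ({ν | ‖a ν‖ ≤ 1} ∩ {ν | 0 < m ν}) := ⟨h2.le, hp⟩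
    rw [he] at this
    exact this
  · obtain ⟨ν0, hν0, hmin⟩ := Set.exists_min_image _ m hfin hne
    refine ⟨min 1 (m ν0), lt_min one_pos hν0.2, fun ν h1 h2 => hm0 ν fun hp => ?_⟩
    have h3 : ν ∈ ({ν | ‖a ν‖ ≤ 1} ∩ {ν | 0 < m ν}) := ⟨(h2.trans_le (min_le_left _ _)).le, hp⟩
    have h4 := hmin ν h3
    have h5 : m ν < m ν0 := max_lt (h1.trans_le (min_le_right _ _)) (h2.trans_le (min_le_right _ _))
    exact absurd h4 (not_le.2 h5)

end

theorem t_ZAS : S_ZAS := by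
  intro k N _ A a h
  obtain ⟨C0, hC0⟩ := h.bdd
  set C : ℝ := max C0 1 with hCdef
  have hC : ∀ ν, ‖A ν‖ ≤ C := fun ν => (hC0 ν).trans (le_max_left _ _)
  have hC1 : 1 ≤ C := le_max_right _ _
  have hCp : 0 < C := by linarith
  have hε : 0 < 1 / (16 * C ^ 2) := by positivity
  refine ⟨1 / (16 * C ^ 2), hε, fun F hF hFε => ?_⟩
  set ε : ℝ := 1 / (16 * C ^ 2) with hεdef
  have hεC : 2 * C * ε ≤ 1 / 8 := by
    have : 2 * C * ε = 1 / (8 * C) := by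
      rw [hεdef]; field_simp; norm_num
    rw [this]
    apply one_div_le_one_div_of_le (by norm_num)
    linarith
  have hε16 : ε ≤ 1 / 16 := by nlinarith
  -- bound of the translation parts on F
  obtain ⟨R, hR0, hR⟩ : ∃ R : ℝ, 0 ≤ R ∧ ∀ f ∈ F, ‖a f‖ ≤ R := by
    obtain ⟨R, hR⟩ := (hF.image fun f => ‖a f‖).bddAbove
    exact ⟨max R 0, le_max_right _ _, fun f hf => (hR ⟨f, hf, rfl⟩).trans (le_max_left _ _)⟩
  have key : ∀ j : ℕ, ∀ c ∈ CommL F j, ‖A c - 1‖ ≤ ε / 8 ^ j ∧ ‖a c‖ ≤ R / 2 ^ j := by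
    intro j
    induction j with
    | zero =>
      intro c hc
      simp only [pow_zero, div_one]
      exact ⟨hFε c hc, hR c hc⟩
    | succ j ih =>
      rintro x ⟨f, hf, c, hc, rfl⟩
      obtain ⟨h1, h2⟩ := ih c hc
      have h3 := hFε f hf
      have h4 := hR f hf
      have h8 : (0 : ℝ) < 8 ^ j := by positivity
      have h2j : (0 : ℝ) < 2 ^ j := by positivity
      have hδ : 0 ≤ ε / 8 ^ j := by positivity
      have hL : ‖A (f * c * f⁻¹ * c⁻¹) - 1‖ ≤ (ε / 8 ^ j) / 8 := by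
        calc _ ≤ 2 * C * ‖A f - 1‖ * ‖A c - 1‖ := norm_lin A C hC hCp.le f c
          _ ≤ 2 * C * ε * (ε / 8 ^ j) := by gcongr
          _ ≤ (1 / 8) * (ε / 8 ^ j) := by gcongr
          _ = _ := by ring
      refine ⟨?_, ?_⟩
      · rw [pow_succ, ← div_div]
        exact hL
      · have hle1 : ε / 8 ^ j ≤ ε := div_le_self hε.le (one_le_pow₀ (by norm_num))
        have h82 : (1 : ℝ) / 8 ^ j ≤ 1 / 2 ^ j := by
          apply one_div_le_one_div_of_le h2j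
          gcongr
          norm_num
        calc ‖a (f * c * f⁻¹ * c⁻¹)‖ ≤ (‖A f - 1‖ + ‖A (f * c * f⁻¹ * c⁻¹) - 1‖) * ‖a c‖ +
              (‖A (f * c * f⁻¹ * c⁻¹) - 1‖ * C + ‖A c - 1‖) * ‖a f‖ := norm_tr h C hC f c
          _ ≤ (ε + (ε / 8 ^ j) / 8) * (R / 2 ^ j) + ((ε / 8 ^ j) / 8 * C + ε / 8 ^ j) * R := by
              gcongr
          _ ≤ (1 / 8) * (R / 2 ^ j) + (1 / 8) * (R * (1 / 8 ^ j)) := by
              have e1 : ε + (ε / 8 ^ j) / 8 ≤ 1 / 8 := by linarith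
              have e2 : (ε / 8 ^ j) / 8 * C + ε / 8 ^ j ≤ (2 * C * ε) * (1 / 8 ^ j) := by
                have : (2 * C * ε) * (1 / 8 ^ j) = 2 * C * (ε / 8 ^ j) := by ring
                rw [this]
                nlinarith
              have e3 : (2 * C * ε) * (1 / 8 ^ j) ≤ (1 / 8) * (1 / 8 ^ j) := by gcongr
              have e4 : ((ε / 8 ^ j) / 8 * C + ε / 8 ^ j) * R ≤ ((1 / 8) * (1 / 8 ^ j)) * R :=
                mul_le_mul_of_nonneg_right (e2.trans e3) hR0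
              have e5 : (ε + (ε / 8 ^ j) / 8) * (R / 2 ^ j) ≤ (1 / 8) * (R / 2 ^ j) :=
                mul_le_mul_of_nonneg_right e1 (by positivity)
              linarith
          _ ≤ (1 / 8) * (R / 2 ^ j) + (1 / 8) * (R * (1 / 2 ^ j)) := by gcongr
          _ ≤ R / 2 ^ (j + 1) := by
              have : R / 2 ^ (j + 1) = (1 / 2) * (R / 2 ^ j) := by
                rw [pow_succ]; field_simp
              rw [this]
              have e6 : R * (1 / 2 ^ j) = R / 2 ^ j := by ring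
              rw [e6]
              have : 0 ≤ R / 2 ^ j := by positivity
              linarith
  obtain ⟨δ, hδ, hgap⟩ := gap h
  have ht1 : Filter.Tendsto (fun n : ℕ => ε / 8 ^ n) Filter.atTop (nhds 0) := by
    have := (tendsto_pow_atTop_nhds_zero_of_lt_one (r := (1 / 8 : ℝ)) (by norm_num) (by norm_num)).const_mul ε
    rw [mul_zero] at this
    refine this.congr fun n => ?_
    rw [one_div, inv_pow]; rfl
  have ht2 : Filter.Tendsto (fun n : ℕ => R / 2 ^ n) Filter.atTop (nhds 0) := by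
    have := (tendsto_pow_atTop_nhds_zero_of_lt_one (r := (1 / 2 : ℝ)) (by norm_num) (by norm_num)).const_mul R
    rw [mul_zero] at this
    refine this.congr fun n => ?_
    rw [one_div, inv_pow]; rfl
  obtain ⟨n, hn1, hn2⟩ := ((ht1.eventually (gt_mem_nhds hδ)).and (ht2.eventually (gt_mem_nhds hδ))).exists
  refine ⟨n, fun c hc => ?_⟩
  obtain ⟨h1, h2⟩ := key n c hc
  exact hgap c (h1.trans_lt hn1) (h2.trans_lt hn2)

end Pool.Agent.Helper32.LinK.ZASP
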