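import Pool.Agent.Helper45.LinK.GoalsN

set_option autoImplicit false

open Complex Metric Set Filter Topology MeasureTheory
open scoped ContDiff ComplexConjugate ComplexOrder Manifold

namespace Pool.Agent.Helper32.LinK.COMMP

open Pool.Agent.Helper45.LinK Pool.Agent.Helper95.Lin Pool.Agent.Helper16.Abund Pool.Agent.Helper92.Orb

theorem t_COMM : S_COMM := by
  intro n E _ _ M hM f hf
  have hD : ContDiffOn ℝ ∞ (fderiv ℝ f) M := hf.fderiv_of_isOpen hM (by simp)
  refine ⟨fun e => ⟨?_, ?_⟩, ?_⟩
  · exact (hD.clm_apply contDiffOn_const).sub ((hD.clm_apply contDiffOn_const).const_smul I)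
  · exact (hD.clm_apply contDiffOn_const).add ((hD.clm_apply contDiffOn_const).const_smul I)
  · intro x hx e e'
    have hfx : ContDiffAt ℝ ∞ f x := hf.contDiffAt (hM.mem_nhds hx)
    have hsym : IsSymmSndFDerivAt ℝ f x := hfx.isSymmSndFDerivAt (by
      rw [minSmoothness_of_isRCLikeNormedField]
      exact WithTop.coe_le_coe.2 (le_top : (2 : ℕ∞) ≤ ⊤))
    have hDx : DifferentiableAt ℝ (fderiv ℝ f) x :=
      (hD.contDiffAt (hM.mem_nhds hx)).differentiableAt (by simp)
    set A := fderiv ℝ (fderiv ℝ f) x with hA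
    have hs : ∀ a b, A a b = A b a := fun a b => hsym a b
    have h1 : ∀ b : Cn n, HasFDerivAt (fun y => fderiv ℝ f y b) (A.flip b) x := by
      intro b
      have h2 := hDx.hasFDerivAt.clm_apply (hasFDerivAt_const b x)
      have h3 : fderiv ℝ f x ∘SL (0 : Cn n →L[ℝ] Cn n) + (fderiv ℝ (fderiv ℝ f) x).flip b =
          A.flip b := by
        ext a
        simp [hA]
      rw [h3] at h2
      exact h2
    have hz : ∀ b a : Cn n, fderiv ℝ (dz b f) x a = A a b - I • A a (I • b) := by
      intro b a
      have : HasFDerivAt (dz b f) (A.flip b - I • A.flip (I • b)) x :=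
        (h1 b).sub ((h1 (I • b)).const_smul I)
      rw [this.fderiv]
      rfl
    have hzb : ∀ b a : Cn n, fderiv ℝ (dzb b f) x a = A a b + I • A a (I • b) := by
      intro b a
      have : HasFDerivAt (dzb b f) (A.flip b + I • A.flip (I • b)) x :=
        (h1 b).add ((h1 (I • b)).const_smul I)
      rw [this.fderiv]
      rfl
    constructor
    · show fderiv ℝ (dzb e' f) x e + I • fderiv ℝ (dzb e' f) x (I • e) =
        fderiv ℝ (dzb e f) x e' + I • fderiv ℝ (dzb e f) x (I • e')
      rw [hzb, hzb, hzb, hzb, hs e e', hs e (I • e'), hs (I • e) e', hs (I • e) (I • e')]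
      simp only [smul_add]
      abel
    · show fderiv ℝ (dzb e' f) x e - I • fderiv ℝ (dzb e' f) x (I • e) =
        fderiv ℝ (dz e f) x e' + I • fderiv ℝ (dz e f) x (I • e')
      rw [hzb, hzb, hz, hz, hs e e', hs e (I • e'), hs (I • e) e', hs (I • e) (I • e')]
      simp only [smul_add, smul_sub]
      abel

end Pool.Agent.Helper32.LinK.COMMP
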