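import Pool.Agent.Helper45.LinK.GoalsK
import Pool.Agent.Helper95.Lin.GoalsI
import Pool.Agent.Helper95.Lin.GoalsA
import Pool.Agent.Helper95.Lin.GoalsF
import Pool.Agent.Helper95.Lin.GoalsG

set_option autoImplicit false

namespace Pool.Agent.Helper32.LinK.DISCRKP

open Pool.Agent.Helper45.LinK Pool.Agent.Helper95.Lin

theorem t_DISCRK (hDISC : S_DISC) (hALT : S_ALT) (hNOAB : S_NOAB) (hNOSSK : S_NOSSK)
    (hAPPKK : S_APPKK) : S_DISCRK := by
  intro b k D Γ _ g A β H hL hK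
  refine hDISC hL.base fun hV => ?_
  rcases hALT hL.base hV with ⟨m, V, Q, hQ⟩ | ⟨p, B, P, hS⟩
  · obtain ⟨h1, h2⟩ := hAPPKK hL hK hQ
    exact hNOAB hL.base hQ h1 h2
  · exact hNOSSK hL p B P hS

end Pool.Agent.Helper32.LinK.DISCRKP
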